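import Pool.Agent.Helper15.CX.Lk

/-!
# Approximate unimodality of the `k`-absolute length generating functions of all finite Coxeter systems

For every finite Coxeter system `(W, S)` with set of reflections `T` and for every `k` and `l` the coefficients `c_m` of
`P_{W,k}` satisfy `min (∑_{m < l} c_m) (∑_{m > l} c_m) ≤ (|T| + 1) c_l`.

Proof idea.  If `x < t x` and `s` is simple then `x s < t x s` unless `t x = x s` (sign cocycle of the Coxeter system).  So a
directed path from `e` to `w` in the `k`-Bruhat graph, multiplied by `s` from the right, gives a directed path from `e` to `w s`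
which is longer by at most one, and the `k`-absolute length changes by at most one along the edges of the right Cayley graph.
Join every pair `a`, `b` by the path that follows a fixed reduced word of `a⁻¹ b`.  Every pair with `a` below and `b` above the
level `l` passes through the level `l`, and every element lies on at most `∑ ℓ(g) = |W| |T| / 2` of these paths.
-/

set_option autoImplicit false
open Classical

namespace Pool.Agent.Results.MP_709c67_co.ApproxUnimodal

variable {B W : Type*} [Group W] {M : CoxeterMatrix B}

/-- The set `T_k` of the reflections of length at most `2 k + 1`. -/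
def reflections (cs : CoxeterSystem M W) (k : ℕ) : Set W :=
  {t | cs.IsReflection t ∧ cs.length t ≤ 2 * k + 1}

/-- The strict Bruhat order: the transitive closure of the relation `a → t a`, `t` a reflection, `ℓ(a) < ℓ(t a)`. -/
def BruhatLT (cs : CoxeterSystem M W) : W → W → Prop :=
  Relation.TransGen (fun a b => cs.IsReflection (b * a⁻¹) ∧ cs.length a < cs.length b)

/-- The arrows of the `k`-Bruhat graph. -/
def Arrow (cs : CoxeterSystem M W) (k : ℕ) (a b : W) : Prop :=
  a * b⁻¹ ∈ reflections cs k ∧ BruhatLT cs a b

/-- There is a directed path with `m` arrows from the identity to `w` in the `k`-Bruhat graph. -/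
def PathTo (cs : CoxeterSystem M W) (k : ℕ) : ℕ → W → Prop
  | 0, w => w = 1
  | m + 1, w => ∃ a, PathTo cs k m a ∧ Arrow cs k a w

/-- The `k`-absolute length. -/
noncomputable def absLength (cs : CoxeterSystem M W) (k : ℕ) (w : W) : ℕ := sInf {m | PathTo cs k m w}

/-- The coefficient of `x ^ i` in `P_{W,k}`. -/
noncomputable def coeffP (cs : CoxeterSystem M W) (k i : ℕ) : ℕ := Nat.card {w : W // absLength cs k w = i}

theorem bruhat_length (cs : CoxeterSystem M W) {a b : W} (h : BruhatLT cs a b) : cs.length a < cs.length b := by
  induction h with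
  | single h => exact h.2
  | tail _ h ih => exact ih.trans h.2

theorem arrow_iff (cs : CoxeterSystem M W) (k : ℕ) (a b : W) :
    Arrow cs k a b ↔ Pool.Agent.Helper15.CX.Arr cs k a b := by
  constructor
  · rintro ⟨⟨h1, h2⟩, h3⟩
    exact ⟨h1, h2, bruhat_length cs h3⟩
  · rintro ⟨h1, h2, h3⟩
    refine ⟨⟨h1, h2⟩, Relation.TransGen.single ⟨?_, h3⟩⟩
    have := h1.isReflection_inv
    rwa [mul_inv_rev, inv_inv] at this

theorem path_iff (cs : CoxeterSystem M W) (k : ℕ) : ∀ (m : ℕ) (w : W),
    PathTo cs k m w ↔ Pool.Agent.Helper15.CX.Reach cs k m w := by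
  intro m
  induction m with
  | zero => intro w; exact Iff.rfl
  | succ m ih =>
    intro w
    show (∃ a, PathTo cs k m a ∧ Arrow cs k a w) ↔ ∃ a, _ ∧ _
    simp only [ih, arrow_iff]

theorem absLength_eq (cs : CoxeterSystem M W) (k : ℕ) (w : W) :
    absLength cs k w = Pool.Agent.Helper15.CX.lk cs k w := by
  unfold absLength Pool.Agent.Helper15.CX.lk
  simp only [path_iff]

/-- For every finite Coxeter system `(W, S)`, every `k` and every `l` the coefficients `c_m` of `P_{W,k}` satisfy
`min (∑_{m < l} c_m) (∑_{m > l} c_m) ≤ (|T| + 1) c_l`, where `|T|` is the number of reflections.  In particular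
`min c_i c_j ≤ (|T| + 1) c_l` whenever `i ≤ l ≤ j`: the sequence has no internal zeros and is unimodal up to the factor
`|T| + 1`. -/
theorem result {B W : Type*} [Group W] [Finite W] {M : CoxeterMatrix B} (cs : CoxeterSystem M W) (k l : ℕ) :
    min (Nat.card {w : W // absLength cs k w < l}) (Nat.card {w : W // l < absLength cs k w}) ≤
      (Nat.card {t : W // cs.IsReflection t} + 1) * coeffP cs k l := by
  haveI : Fintype W := Fintype.ofFinite W
  have h := Pool.Agent.Helper15.CX.approx cs (Pool.Agent.Helper15.CX.lk cs k)
    (fun w i => Pool.Agent.Helper15.CX.lk_mul_simple cs k w i) l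
  have hc : coeffP cs k l =
      (Finset.univ.filter (fun w : W => Pool.Agent.Helper15.CX.lk cs k w = l)).card := by
    unfold coeffP
    rw [Nat.card_eq_fintype_card, Fintype.card_subtype]
    simp only [absLength_eq]
  have ha : Nat.card {w : W // absLength cs k w < l} =
      (Finset.univ.filter (fun w : W => Pool.Agent.Helper15.CX.lk cs k w < l)).card := by
    rw [Nat.card_eq_fintype_card, Fintype.card_subtype]
    simp only [absLength_eq]
  have hb : Nat.card {w : W // l < absLength cs k w} =
      (Finset.univ.filter (fun w : W => l < Pool.Agent.Helper15.CX.lk cs k w)).card := by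
    rw [Nat.card_eq_fintype_card, Fintype.card_subtype]
    simp only [absLength_eq]
  have hT : Nat.card {t : W // cs.IsReflection t} = (Finset.univ.filter (fun t : W => cs.IsReflection t)).card := by
    rw [Nat.card_eq_fintype_card, Fintype.card_subtype]
  rw [hc, ha, hb, hT]
  exact h

end Pool.Agent.Results.MP_709c67_co.ApproxUnimodal
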